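import Pool.Agent.H89.INS.DI
import Pool.Agent.H7.NC.Herm

/-!
# A subdirectly irreducible *-regular ring in the variety generated by the artinian ones which is
not directly finite, hence not unit-regular

`StarRing R`: `R` has an involution `star`, additive, `star (x * y) = star y * star x` and
`star (star x) = x`.
-/

set_option autoImplicit false

namespace Pool.Agent.Results.MP_b9d244_al.SubdirectlyIrreducible

/-- A *-regular ring: von Neumann regular with proper involution. -/
def IsStarRegular (R : Type) [Ring R] [StarRing R] : Prop :=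
  (∀ a : R, ∃ x : R, a * x * a = a) ∧ ∀ x : R, star x * x = 0 → x = 0

/-- `x` is the Moore-Penrose inverse `a⁺` of `a`. -/
def IsMP {R : Type} [Ring R] [StarRing R] (a x : R) : Prop :=
  a * x * a = a ∧ x * a * x = x ∧ star (a * x) = a * x ∧ star (x * a) = x * a

/-- `f` is a homomorphism in the signature `(+, -, ·, *, ⁺, 0, 1)`. -/
structure IsHom {R S : Type} [Ring R] [StarRing R] [Ring S] [StarRing S] (f : R → S) : Prop where
  zero : f 0 = 0
  one : f 1 = 1
  add : ∀ x y, f (x + y) = f x + f y
  neg : ∀ x, f (-x) = -f x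
  mul : ∀ x y, f (x * y) = f x * f y
  star : ∀ x, f (Star.star x) = Star.star (f x)
  mp : ∀ a x, IsMP a x → IsMP (f a) (f x)

/-- The members of the variety generated by the artinian *-regular rings: the smallest class which
contains them and is closed under direct products, subalgebras (up to isomorphism: rings with an
injective homomorphism onto a subset closed under all operations, also under `⁺`) and homomorphic
images. -/
inductive InA : (R : Type) → [Ring R] → [StarRing R] → Prop
  | artinian (R : Type) [Ring R] [StarRing R] : IsStarRegular R → IsArtinianRing R → InA R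
  | product (I : Type) (S : I → Type) [∀ i, Ring (S i)] [∀ i, StarRing (S i)] :
      (∀ i, InA (S i)) → InA (∀ i, S i)
  | subalgebra (R S : Type) [Ring R] [StarRing R] [Ring S] [StarRing S] (f : R → S) :
      IsHom f → Function.Injective f → (∀ (a : R) (x : S), IsMP (f a) x → ∃ y : R, f y = x) →
      InA S → InA R
  | image (R S : Type) [Ring R] [StarRing R] [Ring S] [StarRing S] (f : S → R) :
      IsHom f → Function.Surjective f → InA S → InA R

/-- `c` is a congruence of `R` in the signature `(+, -, ·, *, ⁺, 0, 1)`. -/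
structure IsCongruence {R : Type} [Ring R] [StarRing R] (c : R → R → Prop) : Prop where
  equivalence : Equivalence c
  add : ∀ a b a' b', c a a' → c b b' → c (a + b) (a' + b')
  neg : ∀ a a', c a a' → c (-a) (-a')
  mul : ∀ a b a' b', c a a' → c b b' → c (a * b) (a' * b')
  star : ∀ a a', c a a' → c (Star.star a) (Star.star a')
  mp : ∀ a a' x x', c a a' → IsMP a x → IsMP a' x' → c x x'

/-- `R` is subdirectly irreducible: some pair of distinct elements is contained in every congruence
other than equality. -/
def IsSubdirectlyIrreducible (R : Type) [Ring R] [StarRing R] : Prop :=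
  ∃ a b : R, a ≠ b ∧ ∀ c : R → R → Prop, IsCongruence c → (∃ x y, x ≠ y ∧ c x y) → c a b

open Pool.Agent.H7 Filter in
/-- There is a subdirectly irreducible *-regular ring `R` in the variety generated by the artinian
*-regular rings which is not directly finite: `x y = 1` and `y x ≠ 1` for some `x, y`; in particular
`R` is not unit-regular. -/
theorem result : ∃ (R : Type) (_ : Ring R) (_ : StarRing R), IsStarRegular R ∧ InA R ∧
    IsSubdirectlyIrreducible R ∧ (∃ x y : R, x * y = 1 ∧ y * x ≠ 1) ∧
    ∃ a : R, ∀ u v : R, u * v = 1 → v * u = 1 → a * u * a ≠ a := by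
  obtain ⟨R, i1, i2, h1, h2, ⟨x, y, hxy, hyx⟩, emb, h3, h4, h5, _⟩ :=
    Pool.Agent.H89.INS.exists_ring_di (Filter.hyperfilter ℕ : Filter ℕ) Nat.hyperfilter_le_atTop
  refine ⟨R, i1, i2, ⟨h1, h2⟩, ?_, ?_, ⟨x, y, hxy, hyx⟩, y, fun u v huv hvu e => ?_⟩
  · obtain ⟨I, S, j1, j2, k1, k2, k3, T, f, t1, t2, t3, t4, t5, t6, t7⟩ := mem_variety h3 h4 h1
    have hP : InA (∀ i, S i) := InA.product I S fun i => InA.artinian (S i) ⟨k2 i, k3 i⟩ (k1 i)
    let instT : StarRing T :=
      { star := fun x => ⟨star x.1, t1 _ x.2⟩
        star_involutive := fun x => Subtype.ext (star_star x.1)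
        star_mul := fun x y => Subtype.ext (star_mul x.1 y.1)
        star_add := fun x y => Subtype.ext (star_add x.1 y.1) }
    have hregT : ∀ a : T, ∃ x : T, a * x * a = a := by
      rintro ⟨a, ha⟩
      obtain ⟨x, hx, hax⟩ := t2 a ha
      exact ⟨⟨x, hx⟩, Subtype.ext hax⟩
    have hpropT : ∀ a : T, star a * a = 0 → a = 0 := by
      rintro ⟨a, ha⟩ h
      apply Subtype.ext
      funext i
      exact k3 i (a i) (congrFun (congrArg Subtype.val h) i)
    have hT : InA T := by
      refine InA.subalgebra T (∀ i, S i) Subtype.val ⟨rfl, rfl, fun _ _ => rfl, fun _ => rfl,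
        fun _ _ => rfl, fun _ => rfl, ?_⟩ Subtype.val_injective ?_ hP
      · rintro a x ⟨e1, e2, e3, e4⟩
        exact ⟨congrArg Subtype.val e1, congrArg Subtype.val e2, congrArg Subtype.val e3,
          congrArg Subtype.val e4⟩
      · intro a x hx
        obtain ⟨z, e1, e2, e3, e4⟩ := Pool.Agent.H7.NC.exists_isMP hregT hpropT a
        refine ⟨z, ?_⟩
        have hz : Pool.Agent.H7.NC.IsMP a.1 z.1 :=
          ⟨congrArg Subtype.val e1, congrArg Subtype.val e2, congrArg Subtype.val e3,
            congrArg Subtype.val e4⟩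
        exact Pool.Agent.H7.NC.IsMP.unique hz hx
    let g : T →+* R := RingHom.mk' ⟨⟨fun x => f x.1, t3⟩, fun x y => t5 _ x.2 _ y.2⟩
      fun x y => t4 _ x.2 _ y.2
    have hg : ∀ x : T, g (star x) = star (g x) := fun x => t6 _ x.2
    refine InA.image R T g ⟨map_zero g, map_one g, map_add g, map_neg g, map_mul g, hg, ?_⟩ ?_ hT
    · intro a x hx
      exact Pool.Agent.H7.NC.IsMP.map g hg hx
    · intro r
      obtain ⟨x, hx, hr⟩ := t7 r
      exact ⟨⟨x, hx⟩, hr⟩
  · obtain ⟨a, ha, hJ⟩ := subdirectly_irreducible h3 h5
    refine ⟨a, 0, ha, fun c hc ⟨p, q, hpq, hcpq⟩ => ?_⟩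
    have href : ∀ z, c z z := fun z => hc.equivalence.refl z
    let J : TwoSidedIdeal R := TwoSidedIdeal.mk' {z | c z 0} (href 0)
      (fun {z z'} hz hz' => by
        have := hc.add _ _ _ _ hz hz'
        rwa [add_zero] at this)
      (fun {z} hz => by
        have := hc.neg _ _ hz
        rwa [neg_zero] at this)
      (fun {z z'} hz => by
        have := hc.mul _ _ _ _ (href z) hz
        rwa [mul_zero] at this)
      (fun {z z'} hz => by
        have := hc.mul _ _ _ _ hz (href z')
        rwa [zero_mul] at this)
    have h6 : a ∈ J := by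
      refine hJ J ⟨p - q, ?_, sub_ne_zero.2 hpq⟩
      rw [TwoSidedIdeal.mem_mk']
      have := hc.add _ _ _ _ hcpq (href (-q))
      rwa [← sub_eq_add_neg, ← sub_eq_add_neg, sub_self] at this
    rw [TwoSidedIdeal.mem_mk'] at h6
    exact h6
  · have h3 : u * y = 1 := by
      calc u * y = (x * y) * (u * y) := by rw [hxy, one_mul]
        _ = x * (y * u * y) := by simp only [mul_assoc]
        _ = 1 := by rw [e, hxy]
    have h4 : y = v := by
      calc y = (v * u) * y := by rw [hvu, one_mul]
        _ = v * (u * y) := by rw [mul_assoc]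
        _ = v := by rw [h3, mul_one]
    have h5 : x = u := by
      calc x = x * (v * u) := by rw [hvu, mul_one]
        _ = (x * y) * u := by rw [h4, mul_assoc]
        _ = u := by rw [hxy, one_mul]
    exact hyx (by rw [h4, h5, hvu])

end Pool.Agent.Results.MP_b9d244_al.SubdirectlyIrreducible
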